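import Pool.Agent.H90.EH.Targets

/-!
# Module PIN of the board hst_modules (MP_e3a811_co)
-/

set_option autoImplicit false

namespace Pool.Agent.H21.EH

open Pool.Agent.H90.EH
open Finset

theorem le_refl' (f : PowerSeries ℤ) : Le f f := fun _ => le_refl _

theorem le_trans' {f g h : PowerSeries ℤ} (h1 : Le f g) (h2 : Le g h) : Le f h :=
  fun m => (h1 m).trans (h2 m)

theorem le_add' {f g f2 g2 : PowerSeries ℤ} (h1 : Le f g) (h2 : Le f2 g2) :
    Le (f + f2) (g + g2) := by
  intro m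
  rw [map_add, map_add]
  exact add_le_add (h1 m) (h2 m)

theorem le_mul' {f g f2 g2 : PowerSeries ℤ} (h0 : Le 0 f) (h1 : Le f g) (h20 : Le 0 f2)
    (h2 : Le f2 g2) : Le (f * f2) (g * g2) := by
  intro m
  rw [PowerSeries.coeff_mul, PowerSeries.coeff_mul]
  apply Finset.sum_le_sum
  intro x _
  have a1 := h0 x.1
  have a2 := h20 x.2
  rw [map_zero] at a1 a2
  exact mul_le_mul (h1 x.1) (h2 x.2) a2 (a1.trans (h1 x.1))

theorem zero_le_mul' {f g : PowerSeries ℤ} (h0 : Le 0 f) (h1 : Le 0 g) : Le 0 (f * g) := by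
  have := le_mul' (le_refl' 0) h0 (le_refl' 0) h1
  rw [mul_zero] at this
  exact this

theorem zero_le_one' : Le 0 (1 : PowerSeries ℤ) := by
  intro m
  rw [map_zero, PowerSeries.coeff_one]
  split_ifs <;> norm_num

theorem zero_le_prod' {ι : Type} (s : Finset ι) (f : ι → PowerSeries ℤ)
    (h : ∀ i ∈ s, Le 0 (f i)) : Le 0 (∏ i ∈ s, f i) := by
  classical
  induction s using Finset.induction_on with
  | empty => rw [Finset.prod_empty]; exact zero_le_one'
  | insert a s ha ih =>
    rw [Finset.prod_insert ha]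
    exact zero_le_mul' (h a (Finset.mem_insert_self a s))
      (ih fun i hi => h i (Finset.mem_insert_of_mem hi))

theorem prod_le_prod' {ι : Type} (s : Finset ι) (f g : ι → PowerSeries ℤ)
    (h0 : ∀ i ∈ s, Le 0 (f i)) (h : ∀ i ∈ s, Le (f i) (g i)) :
    Le (∏ i ∈ s, f i) (∏ i ∈ s, g i) := by
  classical
  induction s using Finset.induction_on with
  | empty => rw [Finset.prod_empty, Finset.prod_empty]; exact le_refl' 1
  | insert a s ha ih =>
    rw [Finset.prod_insert ha, Finset.prod_insert ha]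
    exact le_mul' (h0 a (Finset.mem_insert_self a s)) (h a (Finset.mem_insert_self a s))
      (zero_le_prod' s f fun i hi => h0 i (Finset.mem_insert_of_mem hi))
      (ih (fun i hi => h0 i (Finset.mem_insert_of_mem hi))
        fun i hi => h i (Finset.mem_insert_of_mem hi))

theorem zero_le_pow' {f : PowerSeries ℤ} (h0 : Le 0 f) (k : ℕ) : Le 0 (f ^ k) := by
  induction k with
  | zero => rw [pow_zero]; exact zero_le_one'
  | succ k ih => rw [pow_succ]; exact zero_le_mul' ih h0

theorem pow_le_pow' {f g : PowerSeries ℤ} (h0 : Le 0 f) (h : Le f g) (k : ℕ) :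
    Le (f ^ k) (g ^ k) := by
  induction k with
  | zero => rw [pow_zero, pow_zero]; exact le_refl' 1
  | succ k ih => rw [pow_succ, pow_succ]; exact le_mul' (zero_le_pow' h0 k) ih h0 h

theorem zero_le_sum' {ι : Type} (s : Finset ι) (f : ι → PowerSeries ℤ)
    (h : ∀ i ∈ s, Le 0 (f i)) : Le 0 (∑ i ∈ s, f i) := by
  intro m
  rw [map_zero, map_sum]
  apply Finset.sum_nonneg
  intro i hi
  have := h i hi m
  rwa [map_zero] at this

/-- `a ^ k + b ^ k ≤ (a + b) ^ k` for `k ≥ 1` -/
theorem add_pow_le' {f g : PowerSeries ℤ} (h0 : Le 0 f) (h1 : Le 0 g) (k : ℕ) :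
    Le (f ^ (k + 1) + g ^ (k + 1)) ((f + g) ^ (k + 1)) := by
  induction k with
  | zero => rw [zero_add, pow_one, pow_one, pow_one]; exact le_refl' _
  | succ k ih =>
    have e1 : (f + g) ^ (k + 1 + 1) = (f + g) ^ (k + 1) * (f + g) := pow_succ _ _
    have e2 : (f ^ (k + 1) + g ^ (k + 1)) * (f + g) =
        (f ^ (k + 1 + 1) + g ^ (k + 1 + 1)) + (f ^ (k + 1) * g + g ^ (k + 1) * f) := by ring
    have h3 : Le ((f ^ (k + 1) + g ^ (k + 1)) * (f + g)) ((f + g) ^ (k + 1) * (f + g)) := by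
      apply le_mul' _ ih _ (le_refl' _)
      · have := le_add' (zero_le_pow' h0 (k + 1)) (zero_le_pow' h1 (k + 1))
        rwa [add_zero] at this
      · have := le_add' h0 h1
        rwa [add_zero] at this
    rw [e1]
    refine le_trans' ?_ h3
    rw [e2]
    have h4 : Le 0 (f ^ (k + 1) * g + g ^ (k + 1) * f) := by
      have := le_add' (zero_le_mul' (zero_le_pow' h0 (k + 1)) h1)
        (zero_le_mul' (zero_le_pow' h1 (k + 1)) h0)
      rwa [add_zero] at this
    have := le_add' (le_refl' (f ^ (k + 1 + 1) + g ^ (k + 1 + 1))) h4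
    rwa [add_zero] at this

theorem sum_pow_le' {ι : Type} (s : Finset ι) (f : ι → PowerSeries ℤ)
    (h : ∀ i ∈ s, Le 0 (f i)) (k : ℕ) :
    Le (∑ i ∈ s, f i ^ (k + 1)) ((∑ i ∈ s, f i) ^ (k + 1)) := by
  classical
  induction s using Finset.induction_on with
  | empty =>
    rw [Finset.sum_empty, Finset.sum_empty, zero_pow (Nat.succ_ne_zero k)]
    exact le_refl' 0
  | insert a s ha ih =>
    rw [Finset.sum_insert ha, Finset.sum_insert ha]
    have h1 := ih fun i hi => h i (Finset.mem_insert_of_mem hi)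
    have h2 := le_add' (le_refl' (f a ^ (k + 1))) h1
    refine le_trans' h2 ?_
    exact add_pow_le' (h a (Finset.mem_insert_self a s))
      (zero_le_sum' s f fun i hi => h i (Finset.mem_insert_of_mem hi)) k

/-- the power series of a cyclotomic polynomial of prime power order -/
theorem coe_cyc (p j : ℕ) (hp : p.Prime) :
    ((Polynomial.cyclotomic (p ^ (j + 1)) ℤ : Polynomial ℤ) : PowerSeries ℤ) =
      ∑ i ∈ range p, ((PowerSeries.X : PowerSeries ℤ) ^ p ^ j) ^ i := by
  rw [Polynomial.cyclotomic_prime_pow_eq_geom_sum hp]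
  have := map_sum (Polynomial.coeToPowerSeries.ringHom (R := ℤ))
    (fun i => ((Polynomial.X : Polynomial ℤ) ^ p ^ j) ^ i) (range p)
  simp only [map_pow, Polynomial.coeToPowerSeries.ringHom_apply, Polynomial.coe_X] at this
  exact this

theorem zero_le_X : Le 0 (PowerSeries.X : PowerSeries ℤ) := by
  intro m
  rw [map_zero, PowerSeries.coeff_X]
  split_ifs <;> norm_num

theorem zero_le_cyc (p j : ℕ) (hp : p.Prime) :
    Le 0 ((Polynomial.cyclotomic (p ^ (j + 1)) ℤ : Polynomial ℤ) : PowerSeries ℤ) := by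
  rw [coe_cyc p j hp]
  apply zero_le_sum'
  intro i _
  exact zero_le_pow' (zero_le_pow' zero_le_X _) _

theorem cyc_le (p j : ℕ) (hp : p.Prime) :
    Le ((Polynomial.cyclotomic (p ^ (j + 1 + 1)) ℤ : Polynomial ℤ) : PowerSeries ℤ)
      (((Polynomial.cyclotomic (p ^ (j + 1)) ℤ : Polynomial ℤ) : PowerSeries ℤ) ^ p) := by
  rw [coe_cyc p (j + 1) hp, coe_cyc p j hp]
  obtain ⟨k, hk⟩ : ∃ k, p = k + 1 := ⟨p - 1, (Nat.succ_pred_eq_of_pos hp.pos).symm⟩
  have h := sum_pow_le' (range p) (fun i => ((PowerSeries.X : PowerSeries ℤ) ^ p ^ j) ^ i)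
    (fun i _ => zero_le_pow' (zero_le_pow' zero_le_X _) _) k
  have e : ∀ i : ℕ, (((PowerSeries.X : PowerSeries ℤ) ^ p ^ j) ^ i) ^ (k + 1) =
      (PowerSeries.X ^ p ^ (j + 1)) ^ i := by
    intro i
    rw [← hk, ← pow_mul, ← pow_mul, ← pow_mul, pow_succ]
    congr 1
    ring
  simp only [e] at h
  rw [← hk] at h
  exact h

theorem coe_prod_pow (s : Finset ℕ) (f : ℕ → Polynomial ℤ) (e : ℕ → ℕ) :
    ((∏ l ∈ s, f l ^ e l : Polynomial ℤ) : PowerSeries ℤ) =
      ∏ l ∈ s, ((f l : Polynomial ℤ) : PowerSeries ℤ) ^ e l := by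
  have := map_prod (Polynomial.coeToPowerSeries.ringHom (R := ℤ)) (fun l => f l ^ e l) s
  simp only [map_pow, Polynomial.coeToPowerSeries.ringHom_apply] at this
  exact this

theorem pf_PIN : T_PIN := by
  intro p r n hp
  refine ⟨?_, ?_⟩
  · intro s
    rw [Dp, coe_prod_pow]
    apply zero_le_prod'
    intro l hl
    rw [Finset.mem_Ioc] at hl
    obtain ⟨j, hj⟩ : ∃ j, l - s = j + 1 := ⟨l - s - 1, by omega⟩
    rw [hj]
    exact zero_le_pow' (zero_le_cyc p j hp) _
  · intro s hs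
    refine ⟨((∏ l ∈ Ioc (s + 1) r, Polynomial.cyclotomic (p ^ (l - s)) ℤ ^ (p ^ s * n l) :
      Polynomial ℤ) : PowerSeries ℤ), ?_, ?_, ?_⟩
    · rw [coe_prod_pow]
      apply zero_le_prod'
      intro l hl
      rw [Finset.mem_Ioc] at hl
      obtain ⟨j, hj⟩ : ∃ j, l - s = j + 1 := ⟨l - s - 1, by omega⟩
      rw [hj]
      exact zero_le_pow' (zero_le_cyc p j hp) _
    · rw [Dp, coe_prod_pow, coe_prod_pow]
      have hI : Ioc s r = insert (s + 1) (Ioc (s + 1) r) := by
        ext x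
        rw [Finset.mem_insert, Finset.mem_Ioc, Finset.mem_Ioc]
        omega
      rw [hI, Finset.prod_insert (by rw [Finset.mem_Ioc]; omega)]
      congr 1
      have h1 : s + 1 - s = 0 + 1 := by omega
      rw [h1, coe_cyc p 0 hp, Ph, pow_zero, pow_one]
    · rw [Dp, coe_prod_pow, coe_prod_pow]
      apply prod_le_prod'
      · intro l hl
        rw [Finset.mem_Ioc] at hl
        obtain ⟨j, hj⟩ : ∃ j, l - s = j + 1 := ⟨l - s - 1, by omega⟩
        rw [hj]
        exact zero_le_pow' (zero_le_cyc p j hp) _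
      · intro l hl
        rw [Finset.mem_Ioc] at hl
        obtain ⟨j, hj⟩ : ∃ j, l - s = j + 1 + 1 := ⟨l - s - 2, by omega⟩
        have hj2 : l - (s + 1) = j + 1 := by omega
        rw [hj, hj2]
        have h2 : p ^ (s + 1) * n l = p * (p ^ s * n l) := by ring
        rw [h2, pow_mul _ p (p ^ s * n l)]
        exact pow_le_pow' (zero_le_cyc p (j + 1) hp) (cyc_le p j hp) _

end Pool.Agent.H21.EH
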